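import Pool.Agent.Helper99.MKV.GoalsC

/-!
# Packet MKV FNW: the smooth weights of the cells
-/

open Finset

namespace Pool.Agent.Helper15.MKV

open Pool.Agent.Helper99.MKV Pool.Agent.Helper99.EXC Pool.Agent.Helper99.ERW

theorem nm_nonneg (x : Site 2) : 0 ≤ nm x := le_max_of_le_left (abs_nonneg _)

theorem nm_le_add (x y : Site 2) : nm x ≤ nm y + nm (x - y) := by
  unfold nm
  have h : ∀ l : Fin 2, |(x l : ℝ)| ≤ |(y l : ℝ)| + |((x - y) l : ℝ)| := by
    intro l
    have e : ((x - y) l : ℝ) = (x l : ℝ) - (y l : ℝ) := by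
      rw [Pi.sub_apply]; push_cast; ring
    rw [e]
    have := abs_add_le (y l : ℝ) ((x l : ℝ) - (y l : ℝ))
    rwa [add_sub_cancel] at this
  refine max_le ((h 0).trans ?_) ((h 1).trans ?_)
  · exact add_le_add (le_max_left _ _) (le_max_left _ _)
  · exact add_le_add (le_max_right _ _) (le_max_right _ _)

theorem nm_symm (x y : Site 2) : nm (x - y) = nm (y - x) := by
  unfold nm
  have h : ∀ l : Fin 2, |((x - y) l : ℝ)| = |((y - x) l : ℝ)| := by
    intro l
    rw [Pi.sub_apply, Pi.sub_apply]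
    push_cast
    exact abs_sub_comm _ _
  rw [h 0, h 1]

theorem abs_nm_sub (x y : Site 2) : |nm x - nm y| ≤ nm (x - y) := by
  rw [abs_le]
  constructor
  · have := nm_le_add y x
    rw [nm_symm y x] at this
    linarith
  · have := nm_le_add x y
    linarith

theorem lt_nm_of_notMem {b k : ℕ} {x : Site 2} (hx : x ∉ Bx b k) : (b * 2 ^ k : ℝ) < nm x := by
  unfold Bx at hx
  rw [mem_box] at hx
  push Not at hx
  obtain ⟨l, hl⟩ := hx
  have h1 : ((b * 2 ^ k : ℕ) : ℝ) < |(x l : ℝ)| := by exact_mod_cast hl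
  have h2 : |(x l : ℝ)| ≤ nm x := by
    unfold nm
    fin_cases l
    · exact le_max_left _ _
    · exact le_max_right _ _
  push_cast at h1
  linarith

theorem clamp_lip (u v : ℝ) : |max 0 (min 1 u) - max 0 (min 1 v)| ≤ |u - v| := by
  have h1 := le_abs_self (u - v)
  have h2 := neg_abs_le (u - v)
  rcases le_total 1 u with hu | hu <;> rcases le_total 1 v with hv | hv <;>
    rcases le_total 0 u with hu0 | hu0 <;> rcases le_total 0 v with hv0 | hv0 <;>
    simp only [min_eq_left, min_eq_right, max_eq_left, max_eq_right, hu, hv, hu0, hv0,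
      zero_le_one] <;> rw [abs_le] <;> constructor <;> linarith

theorem chi_nonneg (b K : ℕ) (x : Site 2) : 0 ≤ chi b K x := le_max_left _ _

theorem chi_le_one (b K : ℕ) (x : Site 2) : chi b K x ≤ 1 :=
  max_le zero_le_one (min_le_left _ _)

theorem chi_out {b K : ℕ} (hb : 1 ≤ b) {x : Site 2} (hx : x ∉ Bx b K) : chi b K x = 0 := by
  have h1 := lt_nm_of_notMem hx
  have hb' : (1 : ℝ) ≤ b := by exact_mod_cast hb
  have h2 : (0 : ℝ) < b * 2 ^ K := by positivity
  unfold chi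
  apply max_eq_left
  refine (min_le_right _ _).trans ?_
  rw [sub_nonpos, le_div_iff₀ h2]
  linarith

theorem chi_lip {b : ℕ} (hb : 1 ≤ b) (K : ℕ) (x y : Site 2) :
    |chi b K x - chi b K y| ≤ 2 * nm (x - y) / 2 ^ K := by
  have hb' : (1 : ℝ) ≤ b := by exact_mod_cast hb
  have h2 : (0 : ℝ) < b * 2 ^ K := by positivity
  have h3 : (0 : ℝ) < 2 ^ K := by positivity
  unfold chi
  refine (clamp_lip _ _).trans ?_
  have e : (2 - 2 * nm x / (b * 2 ^ K)) - (2 - 2 * nm y / (b * 2 ^ K)) =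
      -(2 * (nm x - nm y) / (b * 2 ^ K)) := by ring
  rw [e, abs_neg, abs_div, abs_mul, abs_two, abs_of_pos h2]
  calc 2 * |nm x - nm y| / (b * 2 ^ K) ≤ 2 * nm (x - y) / (b * 2 ^ K) := by
        apply div_le_div_of_nonneg_right _ h2.le
        linarith [abs_nm_sub x y]
    _ ≤ 2 * nm (x - y) / 2 ^ K := by
        apply div_le_div_of_nonneg_left _ h3
        · nlinarith
        · have := nm_nonneg (x - y)
          linarith

theorem FNW : FNW_stmt := by
  intro κ C b hC hb m m'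
  refine ⟨4 * C * 4 ^ (m + m') + 2 * C * 8 ^ (m + m'), by positivity, ?_⟩
  intro a φ Φ k1 hS k hk z0
  obtain ⟨j, rfl⟩ : ∃ j, k = j + m := ⟨k - m, by omega⟩
  have hj : k1 ≤ j := by omega
  have hjm : k1 ≤ j + m := by omega
  have e4 : (4 : ℝ) ^ (j + m) = 4 ^ j * 4 ^ m := pow_add _ _ _
  have e8 : (8 : ℝ) ^ (j + m) = 8 ^ j * 8 ^ m := pow_add _ _ _
  have one4 : (1 : ℝ) ≤ 4 ^ m := one_le_pow₀ (by norm_num)
  have one8 : (1 : ℝ) ≤ 8 ^ m := one_le_pow₀ (by norm_num)
  set F : Site 2 → ℝ := fun x => Df (Φ j) (x - z0) - Df (Φ (j + m)) x with hF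
  have hva : ∀ x, va Φ b m m' (j + m) z0 x = chi b (j + m + m') x * F x := by
    intro x
    unfold va
    rw [Nat.add_sub_cancel]
  have hF1 : ∀ x, |F x| ≤ 2 * C * 4 ^ m / 4 ^ (j + m) := by
    intro x
    have h1 := hS.dphi1 j hj (x - z0)
    have h2 := hS.dphi1 (j + m) hjm x
    have h3 : C / 4 ^ j = C * 4 ^ m / 4 ^ (j + m) := by
      rw [e4]; field_simp
    have h4 : C / 4 ^ (j + m) ≤ C * 4 ^ m / 4 ^ (j + m) := by
      apply div_le_div_of_nonneg_right _ (by positivity)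
      nlinarith
    calc |F x| ≤ |Df (Φ j) (x - z0)| + |Df (Φ (j + m)) x| := abs_sub _ _
      _ ≤ C * 4 ^ m / 4 ^ (j + m) + C * 4 ^ m / 4 ^ (j + m) := by linarith
      _ = 2 * C * 4 ^ m / 4 ^ (j + m) := by ring
  have hF2 : ∀ x y, |F x - F y| ≤ 2 * C * 8 ^ m / 8 ^ (j + m) * nm (x - y) := by
    intro x y
    have h1 := hS.lipk j hj (x - z0) (y - z0)
    rw [sub_sub_sub_cancel_right] at h1
    have h2 := hS.lipk (j + m) hjm x y
    have h3 : C / 8 ^ j = C * 8 ^ m / 8 ^ (j + m) := by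
      rw [e8]; field_simp
    have h4 : C / 8 ^ (j + m) ≤ C * 8 ^ m / 8 ^ (j + m) := by
      apply div_le_div_of_nonneg_right _ (by positivity)
      nlinarith
    have h5 := mul_le_mul_of_nonneg_right h4 (nm_nonneg (x - y))
    rw [h3] at h1
    have e : F x - F y = (Df (Φ j) (x - z0) - Df (Φ j) (y - z0)) -
        (Df (Φ (j + m)) x - Df (Φ (j + m)) y) := by
      rw [hF]; ring
    calc |F x - F y| ≤ |Df (Φ j) (x - z0) - Df (Φ j) (y - z0)| +
          |Df (Φ (j + m)) x - Df (Φ (j + m)) y| := by rw [e]; exact abs_sub _ _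
      _ ≤ C * 8 ^ m / 8 ^ (j + m) * nm (x - y) + C * 8 ^ m / 8 ^ (j + m) * nm (x - y) := by
          linarith
      _ = 2 * C * 8 ^ m / 8 ^ (j + m) * nm (x - y) := by ring
  have p4 : (4 : ℝ) ^ (m + m') = 4 ^ m * 4 ^ m' := pow_add _ _ _
  have p8 : (8 : ℝ) ^ (m + m') = 8 ^ m * 8 ^ m' := pow_add _ _ _
  have q4 : (4 : ℝ) ^ (j + m + m') = 4 ^ (j + m) * 4 ^ m' := pow_add _ _ _
  have q8 : (8 : ℝ) ^ (j + m + m') = 8 ^ (j + m) * 8 ^ m' := pow_add _ _ _
  refine ⟨by positivity, ?_, ?_, ?_⟩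
  · intro x hx
    rw [hva, chi_out hb hx, zero_mul]
  · intro x
    rw [hva, abs_mul, abs_of_nonneg (chi_nonneg _ _ _)]
    calc chi b (j + m + m') x * |F x| ≤ 1 * (2 * C * 4 ^ m / 4 ^ (j + m)) :=
          mul_le_mul (chi_le_one _ _ _) (hF1 x) (abs_nonneg _) zero_le_one
      _ = 2 * C * 4 ^ (m + m') / 4 ^ (j + m + m') := by
          rw [p4, q4]; field_simp
      _ ≤ (4 * C * 4 ^ (m + m') + 2 * C * 8 ^ (m + m')) / 4 ^ (j + m + m') := by
          apply div_le_div_of_nonneg_right _ (by positivity)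
          have h1 : (0 : ℝ) ≤ C * 4 ^ (m + m') := by positivity
          have h2 : (0 : ℝ) ≤ C * 8 ^ (m + m') := by positivity
          linarith
  · intro x y
    rw [hva, hva]
    have e : chi b (j + m + m') x * F x - chi b (j + m + m') y * F y =
        (chi b (j + m + m') x - chi b (j + m + m') y) * F x +
          chi b (j + m + m') y * (F x - F y) := by ring
    have t1 : |(chi b (j + m + m') x - chi b (j + m + m') y) * F x| ≤
        (2 * nm (x - y) / 2 ^ (j + m + m')) * (2 * C * 4 ^ m / 4 ^ (j + m)) := by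
      rw [abs_mul]
      apply mul_le_mul (chi_lip hb _ x y) (hF1 x) (abs_nonneg _)
      have := nm_nonneg (x - y)
      positivity
    have t2 : |chi b (j + m + m') y * (F x - F y)| ≤
        1 * (2 * C * 8 ^ m / 8 ^ (j + m) * nm (x - y)) := by
      rw [abs_mul, abs_of_nonneg (chi_nonneg _ _ _)]
      exact mul_le_mul (chi_le_one _ _ _) (hF2 x y) (abs_nonneg _) zero_le_one
    have s1 : (2 * nm (x - y) / 2 ^ (j + m + m')) * (2 * C * 4 ^ m / 4 ^ (j + m)) =
        4 * C * 4 ^ (m + m') / 8 ^ (j + m + m') * nm (x - y) := by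
      have r8 : (8 : ℝ) ^ (j + m + m') = 2 ^ (j + m + m') * 4 ^ (j + m + m') := by
        rw [← mul_pow]; norm_num
      rw [r8, q4, p4]
      field_simp
      ring
    have s2 : 1 * (2 * C * 8 ^ m / 8 ^ (j + m) * nm (x - y)) =
        2 * C * 8 ^ (m + m') / 8 ^ (j + m + m') * nm (x - y) := by
      rw [q8, p8]
      field_simp
    rw [e]
    refine (abs_add_le _ _).trans ((add_le_add t1 t2).trans (le_of_eq ?_))
    rw [s1, s2]
    ring

end Pool.Agent.Helper15.MKV
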